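import Mathlib
import Pool.Agent.Q210.RC.Defs
import Pool.Agent.Q210.RC.Main

/-!
The definitions are in `Pool.Agent.Q210.RC.Defs`: `Q210.RC.Ramsey Ψ κ` says that `κ` is
`Ψ^∀_ω`-Ramsey, `Q210.RC.CC` is the property `cc(M, U)` and `Q210.RC.Delta` is the property
`Δ(M, U)`.
-/

open Cardinal Ordinal

universe u

namespace Pool.Agent.Results.MP_7fbf3d_lc.LeastCCNotDelta

open Q210.RC

/-- The least `cc^∀_ω`-Ramsey cardinal is not `Δ^∀_ω`-Ramsey. -/
theorem result (κ : Cardinal.{u}) (h : IsLeast {c : Cardinal.{u} | Ramsey CC c} κ) :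
    ¬ Ramsey Delta κ := by
  intro hD
  obtain ⟨γ, c, hc, hR⟩ := (stationary_cc hD).nonempty
  have h1 : c < κ := by
    rw [← Cardinal.ord_lt_ord, hc]
    exact ot_lt γ
  exact absurd (h.2 hR) (not_le.2 h1)

end Pool.Agent.Results.MP_7fbf3d_lc.LeastCCNotDelta
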