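import Mathlib
import Pool.Agent.Q210.RC.Defs
import Pool.Agent.Q210.RC.Main

/-!
The definitions are in `Pool.Agent.Q210.RC.Defs`: `Q210.RC.Ramsey Ψ κ` says that `κ` is
`Ψ^∀_ω`-Ramsey, `Q210.RC.CC` is the property `cc(M, U)`, `Q210.RC.Delta` is the property `Δ(M, U)`,
and `Q210.RC.ot γ` is the ordinal `γ < κ` that corresponds to an element `γ` of the well-ordered
type `κ.ord.ToType` of order type `κ`.
-/

open Cardinal Ordinal

universe u

namespace Pool.Agent.Results.MP_7fbf3d_lc.StationaryManyCC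

open Q210.RC

/-- Let `κ` be a `Δ^∀_ω`-Ramsey cardinal. Then `κ` is inaccessible, and the set of all
`cc^∀_ω`-Ramsey cardinals `c < κ` is stationary in `κ`. (In particular `V_κ` is a model of
ZFC + there is a `cc^∀_ω`-Ramsey cardinal.) -/
theorem result (κ : Cardinal.{u}) (h : Ramsey Delta κ) :
    κ.IsInaccessible ∧
      IsStationary {γ : κ.ord.ToType | ∃ c : Cardinal.{u}, c.ord = ot γ ∧ Ramsey CC c} :=
  ⟨inaccessible h, stationary_cc h⟩

end Pool.Agent.Results.MP_7fbf3d_lc.StationaryManyCC
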